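import Pool.Agent.Helper49.QU.Defs

/-!
# T-QUAD, piece P4: a split fibre gives an unramified symbol
-/

set_option autoImplicit false

namespace Pool.Agent.Helper43.QU

open Matrix Pool.Agent.Helper4.CB Pool.Agent.Helper65.CB Pool.Agent.Helper69.CB
open Pool.Agent.Helper49.QU

/-- renaming by an injective map keeps primes -/
theorem prime_rename_of_injective {σ τ R : Type*} [CommRing R] (f : σ → τ)
    (hf : Function.Injective f) {p : MvPolynomial σ R} (hp : Prime p) :
    Prime (MvPolynomial.rename f p) := by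
  have h1 : MvPolynomial.rename f p = MvPolynomial.rename ((↑) : Set.range f → τ)
      (MvPolynomial.rename (Equiv.ofInjective f hf) p) := by
    rw [MvPolynomial.rename_rename]
    rfl
  rw [h1]
  refine (MvPolynomial.prime_rename_iff (Set.range f)).2 ?_
  exact (MulEquiv.prime_iff
    (MvPolynomial.renameEquiv R (Equiv.ofInjective f hf)).toRingEquiv.toMulEquiv).2 hp

section Core

variable {S : Type*} [CommRing S] {M : ℕ}

theorem split_bil (B : Matrix (Fin M) (Fin M) S) (P c : S) (l l' : Fin M → S)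
    (h : ∀ j k, P ∣ 2 * c * B j k - (l j * l' k + l k * l' j)) (v w : Fin M → S) :
    P ∣ 2 * c * bil B v w - ((∑ j, l j * v j) * (∑ j, l' j * w j) +
      (∑ j, l j * w j) * (∑ j, l' j * v j)) := by
  have h1 : 2 * c * bil B v w - ((∑ j, l j * v j) * (∑ j, l' j * w j) +
      (∑ j, l j * w j) * (∑ j, l' j * v j)) =
      ∑ j, ∑ k, v j * w k * (2 * c * B j k - (l j * l' k + l k * l' j)) := by
    rw [Finset.sum_mul_sum, Finset.sum_mul_sum, bil, Finset.mul_sum]
    rw [Finset.sum_comm (f := fun i j => l i * w i * (l' j * v j))]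
    rw [← Finset.sum_add_distrib, ← Finset.sum_sub_distrib]
    refine Finset.sum_congr rfl fun j _ => ?_
    rw [Finset.mul_sum, ← Finset.sum_add_distrib, ← Finset.sum_sub_distrib]
    refine Finset.sum_congr rfl fun k _ => ?_
    ring
  rw [h1]
  exact Finset.dvd_sum fun j _ => Finset.dvd_sum fun k _ => Dvd.dvd.mul_left (h j k) _

theorem split_D2 (B : Matrix (Fin M) (Fin M) S) (P c : S) (l l' : Fin M → S)
    (h : ∀ j k, P ∣ 2 * c * B j k - (l j * l' k + l k * l' j)) (v : Fin 3 → Fin M → S) :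
    P ∣ (2 * c) ^ 2 * qa B v - ((∑ j, l j * v 0 j) * (∑ j, l' j * v 1 j) -
      (∑ j, l j * v 1 j) * (∑ j, l' j * v 0 j)) ^ 2 := by
  have h00 := split_bil B P c l l' h (v 0) (v 0)
  have h01 := split_bil B P c l l' h (v 0) (v 1)
  have h11 := split_bil B P c l l' h (v 1) (v 1)
  set x := ∑ j, l j * v 0 j
  set x' := ∑ j, l' j * v 0 j
  set y := ∑ j, l j * v 1 j
  set y' := ∑ j, l' j * v 1 j
  have h1 : (2 * c) ^ 2 * qa B v - (x * y' - y * x') ^ 2 =
      (2 * c * bil B (v 0) (v 1) - (x * y' + y * x')) *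
        (2 * c * bil B (v 0) (v 1) + (x * y' + y * x')) -
      (2 * c * bil B (v 0) (v 0) - (x * x' + x * x')) * (2 * c * bil B (v 1) (v 1)) -
      (x * x' + x * x') * (2 * c * bil B (v 1) (v 1) - (y * y' + y * y')) := by
    unfold qa D2
    ring
  rw [h1]
  exact dvd_sub (dvd_sub (Dvd.dvd.mul_right h01 _) (Dvd.dvd.mul_right h00 _))
    (Dvd.dvd.mul_left h11 _)

end Core

section Spec

variable {n r : ℕ} {N : Fin r → ℕ} {k : Type} [Field k]

/-- the specialisation `v_0 = e_j`, `v_1 = e_m` of the generic vectors of the quadric `i` -/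
noncomputable def sp (n : ℕ) (N : Fin r → ℕ) (k : Type) [Field k] (i : Fin r) (j m : Fin (N i)) :
    MvPolynomial (Fin (vn N + n)) k →ₐ[k] MvPolynomial (Fin n) k := by
  classical
  exact MvPolynomial.aeval (Fin.addCases
    (fun s => if (Fintype.equivFin (VI N)).symm s = ⟨i, 0, j⟩ ∨
      (Fintype.equivFin (VI N)).symm s = ⟨i, 1, m⟩ then 1 else 0)
    (fun t => MvPolynomial.X t))

theorem sp_inc (i : Fin r) (j m : Fin (N i)) (p : MvPolynomial (Fin n) k) :
    sp n N k i j m (inc n N k p) = p := by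
  classical
  unfold sp inc
  rw [MvPolynomial.aeval_rename]
  have h : (fun s : Fin n => (Fin.addCases
    (fun s => if (Fintype.equivFin (VI N)).symm s = ⟨i, 0, j⟩ ∨
      (Fintype.equivFin (VI N)).symm s = ⟨i, 1, m⟩ then (1 : MvPolynomial (Fin n) k) else 0)
    (fun t => MvPolynomial.X t) (tix (n := n) N s) : MvPolynomial (Fin n) k)) =
      MvPolynomial.X := by
    funext s
    unfold tix
    rw [Fin.addCases_right]
  have h2 := congrArg (fun F => MvPolynomial.aeval F p) h
  refine Eq.trans h2 ?_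
  simp only [MvPolynomial.aeval_X_left, AlgHom.coe_id, id_eq]

theorem sp_X (i : Fin r) (j m : Fin (N i)) (s : VI N) [Decidable (s = ⟨i, 0, j⟩ ∨ s = ⟨i, 1, m⟩)] :
    sp n N k i j m (MvPolynomial.X (vix N s)) =
      if s = ⟨i, 0, j⟩ ∨ s = ⟨i, 1, m⟩ then 1 else 0 := by
  classical
  unfold sp
  rw [MvPolynomial.aeval_X]
  unfold vix
  rw [Fin.addCases_left, Equiv.symm_apply_apply]
  congr

theorem sp_gv0 (i : Fin r) (j m q : Fin (N i)) :
    sp n N k i j m (gv n N k i 0 q) = if q = j then 1 else 0 := by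
  classical
  unfold gv
  rw [sp_X]
  by_cases h : q = j
  · subst h
    simp
  · rw [if_neg h, if_neg]
    rintro (h1 | h1)
    · apply h
      simpa using h1
    · simp at h1

theorem sp_gv1 (i : Fin r) (j m q : Fin (N i)) :
    sp n N k i j m (gv n N k i 1 q) = if q = m then 1 else 0 := by
  classical
  unfold gv
  rw [sp_X]
  by_cases h : q = m
  · subst h
    simp
  · rw [if_neg h, if_neg]
    rintro (h1 | h1)
    · simp at h1
    · apply h
      simpa using h1

end Spec

variable {n r : ℕ} {N : Fin r → ℕ} {k : Type} [Field k]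

/-- **P4.** a split fibre gives an unramified symbol: `c ^ 2 (- D2)` is a square modulo `P` -/
theorem lcu_of_split [CharZero k]
    (B : ∀ i : Fin r, Matrix (Fin (N i)) (Fin (N i)) (MvPolynomial (Fin n) k))
    (hB : ∀ i, (B i).IsSymm) (i : Fin r) (P : MvPolynomial (Fin n) k) (hP : Irreducible P)
    (hs : SplitAt (B i) P) (hb : bQ N B i ≠ 0) :
    LCU (inc n N k P) (aQ N B i) (bQ N B i) := by
  classical
  clear hB
  obtain ⟨c, l, l', hc, hB', j0, k0, hjk⟩ := hs
  have hinj : Function.Injective (tix (n := n) N) := fun a b h => by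
    unfold tix at h
    exact (Fin.natAdd_injective _ _) h
  have hPp : Prime (inc n N k P) := prime_rename_of_injective _ hinj hP.prime
  set ι := inc n N k with hι
  have hmap : ∀ j m, ι P ∣ 2 * ι c * incB N B i j m -
      (ι (l j) * ι (l' m) + ι (l m) * ι (l' j)) := by
    intro j m
    have h := map_dvd ι (hB' j m)
    rw [map_sub, map_mul, map_mul, map_add, map_mul, map_mul, map_ofNat] at h
    exact h
  have hD := split_D2 (incB N B i) (ι P) (ι c) (fun j => ι (l j)) (fun j => ι (l' j)) hmap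
    (gv n N k i)
  set h0 := (∑ j, ι (l j) * gv n N k i 0 j) * (∑ j, ι (l' j) * gv n N k i 1 j) -
      (∑ j, ι (l j) * gv n N k i 1 j) * (∑ j, ι (l' j) * gv n N k i 0 j) with hh0
  -- `P` does not divide `2 c`
  have hg : ¬ ι P ∣ 2 * ι c := by
    intro h
    apply hc
    have h1 := map_dvd (sp n N k i j0 k0) h
    rw [map_mul, hι, sp_inc, sp_inc, map_ofNat] at h1
    have h2 : c = MvPolynomial.C (1 / 2 : k) * (2 * c) := by
      rw [← mul_assoc]
      have : (MvPolynomial.C (1 / 2 : k) : MvPolynomial (Fin n) k) * 2 = 1 := by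
        have h3 : (2 : MvPolynomial (Fin n) k) = MvPolynomial.C (2 : k) := by
          rw [map_ofNat]
        rw [h3, ← map_mul, one_div, inv_mul_cancel₀ two_ne_zero, map_one]
      rw [this, one_mul]
    rw [h2]
    exact Dvd.dvd.mul_left h1 _
  -- `P` does not divide `D2`
  have hqa : ¬ ι P ∣ aQ N B i := by
    intro h
    apply hjk
    have h1 : ι P ∣ h0 ^ 2 := by
      have h2 : ι P ∣ (2 * ι c) ^ 2 * qa (incB N B i) (gv n N k i) := Dvd.dvd.mul_left h _
      have h3 := dvd_sub h2 hD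
      rw [sub_sub_cancel] at h3
      exact h3
    have h4 : ι P ∣ h0 := hPp.dvd_of_dvd_pow h1
    have h5 := map_dvd (sp n N k i j0 k0) h4
    rw [hι, sp_inc] at h5
    have h6 : sp n N k i j0 k0 h0 = l j0 * l' k0 - l k0 * l' j0 := by
      rw [hh0, map_sub, map_mul, map_mul, map_sum, map_sum, map_sum, map_sum]
      simp only [map_mul, hι, sp_inc, sp_gv0, sp_gv1, mul_ite, mul_one, mul_zero,
        Finset.sum_ite_eq', Finset.mem_univ, if_true]
    rw [h6] at h5
    exact h5
  -- the multiplicity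
  obtain ⟨b1, hb1, hb2⟩ := (FiniteMultiplicity.of_prime_left hPp hb).exists_eq_pow_mul_and_not_dvd
  set f := multiplicity (ι P) (bQ N B i) with hf
  refine ⟨0, f, aQ N B i, b1, (2 * ι c) ^ f, h0 ^ f, by rw [pow_zero, one_mul], hb1, hqa, hb2,
    fun h => hg (hPp.dvd_of_dvd_pow h), ?_⟩
  have h2 := hD.trans (sub_dvd_pow_sub_pow ((2 * ι c) ^ 2 * qa (incB N B i) (gv n N k i))
    (h0 ^ 2) f)
  have h3 : ∀ g A h : MvPolynomial (Fin (vn N + n)) k,
      (g ^ f) ^ 2 * ((-1) ^ (0 * f) * (A ^ f * b1 ^ 0)) - (h ^ f) ^ 2 =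
        (g ^ 2 * A) ^ f - (h ^ 2) ^ f := by
    intro g A h
    rw [zero_mul, pow_zero, pow_zero, one_mul, mul_one, mul_pow, ← pow_mul, ← pow_mul, ← pow_mul,
      ← pow_mul, mul_comm f 2]
  rw [h3]
  exact h2

end Pool.Agent.Helper43.QU
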