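import Pool.Agent.Helper65.CB.TEDefs

/-!
# T-QUAD, piece P4: the core of the split case
-/

set_option autoImplicit false

namespace Pool.Agent.Helper43.QU

open Pool.Agent.Helper65.CB

/-- the identity of the split case -/
theorem split_identity {S : Type*} [CommRing S] (qx qy qv bxy bvx bvy : S) :
    bvx ^ 2 * (-(qx * qy - bxy ^ 2)) - (bvx * bxy - bvy * qx) ^ 2 =
      qx * ((qv * (qx * qy - bxy ^ 2) - bvx * (bvx * qy - bxy * bvy) +
        bvy * (bvx * bxy - qx * bvy)) - qv * (qx * qy - bxy ^ 2)) := by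
  ring

/-- **P4, core.** -/
theorem split_lcu {S : Type*} [CommRing S] {P qx qy qv bxy bvx bvy b b1 : S} (hP : Prime P)
    (hv : P ∣ qv)
    (hdet : P ∣ qv * (qx * qy - bxy ^ 2) - bvx * (bvx * qy - bxy * bvy) +
      bvy * (bvx * bxy - qx * bvy))
    (hg : ¬ P ∣ bvx) (hD : ¬ P ∣ qx * qy - bxy ^ 2) {f : ℕ} (hb : b = P ^ f * b1)
    (hb1 : ¬ P ∣ b1) : LCU P (-(qx * qy - bxy ^ 2)) b := by
  refine ⟨0, f, -(qx * qy - bxy ^ 2), b1, bvx ^ f, (bvx * bxy - bvy * qx) ^ f, by ring, hb,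
    fun h => hD ((dvd_neg).1 h), hb1, fun h => hg (hP.dvd_of_dvd_pow h), ?_⟩
  have h1 : P ∣ bvx ^ 2 * (-(qx * qy - bxy ^ 2)) - (bvx * bxy - bvy * qx) ^ 2 := by
    rw [split_identity qx qy qv bxy bvx bvy]
    exact Dvd.dvd.mul_left (dvd_sub hdet (Dvd.dvd.mul_right hv _)) _
  have h2 := h1.trans (sub_dvd_pow_sub_pow (bvx ^ 2 * (-(qx * qy - bxy ^ 2)))
    ((bvx * bxy - bvy * qx) ^ 2) f)
  have h3 : (bvx ^ f) ^ 2 * ((-1) ^ (0 * f) * ((-(qx * qy - bxy ^ 2)) ^ f * b1 ^ 0)) -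
      ((bvx * bxy - bvy * qx) ^ f) ^ 2 = (bvx ^ 2 * (-(qx * qy - bxy ^ 2))) ^ f -
        ((bvx * bxy - bvy * qx) ^ 2) ^ f := by
    rw [mul_pow, zero_mul, pow_zero, pow_zero, one_mul, mul_one, ← pow_mul, ← pow_mul, ← pow_mul,
      ← pow_mul, mul_comm f 2]
  rw [h3]
  exact h2

end Pool.Agent.Helper43.QU
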